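import Mathlib

open MvPolynomial

namespace Pool.Agent.KellerCross

/-- A finitely generated domain over a field of characteristic zero which is not a field has a
nontrivial derivation on its fraction field. -/
theorem exists_derivation (B : Type) [CommRing B] [IsDomain B] [Algebra ℂ B]
    [Algebra.FiniteType ℂ B] (hB : ¬ IsField B) :
    ∃ D : Derivation ℂ (FractionRing B) (FractionRing B), D ≠ 0 := by
  classical
  by_contra hcon
  push Not at hcon
  have hess : Algebra.EssFiniteType ℂ (FractionRing B) :=
    Algebra.EssFiniteType.comp ℂ B (FractionRing B)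
  have hsub : Subsingleton (Ω[FractionRing B⁄ℂ]) := by
    refine subsingleton_of_forall_eq 0 fun w => ?_
    rw [← Module.forall_dual_apply_eq_zero_iff (FractionRing B)]
    intro φ
    have h := hcon (KaehlerDifferential.linearMapEquivDerivation ℂ (FractionRing B) φ)
    rw [LinearEquiv.map_eq_zero_iff] at h
    rw [h]; rfl
  have hun : Algebra.FormallyUnramified ℂ (FractionRing B) := ⟨hsub⟩
  have hsep : Algebra.IsSeparable ℂ (FractionRing B) :=
    (Algebra.FormallyUnramified.iff_isSeparable ℂ (FractionRing B)).1 hun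
  have halg : Algebra.IsAlgebraic ℂ (FractionRing B) := inferInstance
  apply hB
  have hint : Algebra.IsIntegral ℂ B := by
    constructor
    intro x
    have h1 : IsIntegral ℂ (algebraMap B (FractionRing B) x) :=
      (Algebra.IsAlgebraic.isAlgebraic _).isIntegral
    exact (isIntegral_algebraMap_iff (FaithfulSMul.algebraMap_injective B (FractionRing B))).1 h1
  exact isField_of_isIntegral_of_isField' (Field.toIsField ℂ)

theorem exists_generic_aux {σ : Type} [Finite σ] (B : Type) [CommRing B] [IsDomain B]
    [Algebra ℂ B] (hB : ¬ IsField B) (ψ : MvPolynomial σ ℂ →ₐ[ℂ] B)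
    (hψ : Function.Surjective ψ) :
    ∃ (L : Type) (_ : Field L) (_ : Algebra ℂ L) (φ : MvPolynomial σ ℂ →ₐ[ℂ] L)
      (D : Derivation ℂ L L),
      (∀ p : MvPolynomial σ ℂ, ψ p = 0 → φ p = 0) ∧ ∃ i, D (φ (X i)) ≠ 0 := by
  classical
  have hft : Algebra.FiniteType ℂ B := Algebra.FiniteType.of_surjective ψ hψ
  obtain ⟨D, hD⟩ := exists_derivation B hB
  let φ : MvPolynomial σ ℂ →ₐ[ℂ] FractionRing B :=
    (IsScalarTower.toAlgHom ℂ B (FractionRing B)).comp ψ
  refine ⟨FractionRing B, inferInstance, inferInstance, φ, D, ?_, ?_⟩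
  · intro q hq
    simp only [φ, AlgHom.comp_apply, hq, map_zero]
  · by_contra hcon
    push Not at hcon
    apply hD
    have h1 : ∀ q : MvPolynomial σ ℂ, D (φ q) = 0 := by
      intro q
      induction q using MvPolynomial.induction_on with
      | C a =>
        have : φ (C a) = algebraMap ℂ _ a := φ.commutes a
        rw [this]; exact D.map_algebraMap a
      | add a b ha hb => rw [map_add, map_add, ha, hb, add_zero]
      | mul_X a i ha => rw [map_mul, D.leibniz, ha, hcon i]; simp
    have h2 : ∀ b : B, D (algebraMap B (FractionRing B) b) = 0 := by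
      intro b
      obtain ⟨q, rfl⟩ := hψ b
      exact h1 q
    ext x
    obtain ⟨a, b, hb, rfl⟩ := IsFractionRing.div_surjective (A := B) x
    have hb' : algebraMap B (FractionRing B) b ≠ 0 := by
      intro h
      have := (IsFractionRing.injective B (FractionRing B)) (h.trans (map_zero _).symm)
      exact nonZeroDivisors.ne_zero hb this
    have h3 := D.leibniz (algebraMap B (FractionRing B) a /
      algebraMap B (FractionRing B) b) (algebraMap B (FractionRing B) b)
    rw [div_mul_cancel₀ _ hb', h2, h2] at h3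
    simp only [smul_eq_mul, mul_zero, zero_add] at h3
    have h4 := (mul_eq_zero.1 h3.symm).resolve_left hb'
    rw [h4]; simp

theorem exists_generic {σ : Type} [Finite σ] (V : Set (σ → ℂ)) (hV : V.Infinite) :
    ∃ (L : Type) (_ : Field L) (_ : Algebra ℂ L) (φ : MvPolynomial σ ℂ →ₐ[ℂ] L)
      (D : Derivation ℂ L L),
      (∀ p : MvPolynomial σ ℂ, (∀ v ∈ V, eval v p = 0) → φ p = 0) ∧ ∃ i, D (φ (X i)) ≠ 0 := by
  classical
  set I : Ideal (MvPolynomial σ ℂ) := vanishingIdeal ℂ V with hI
  set A := MvPolynomial σ ℂ ⧸ I with hA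
  have hnot : ¬ Ring.KrullDimLE 0 A := by
    intro h
    have hart : IsArtinianRing A := isArtinianRing_iff_krullDimLE_zero.2 h
    have hfin : Finite (MaximalSpectrum A) := inferInstance
    -- evaluation at points of V
    let ev : V → (A →ₐ[ℂ] ℂ) := fun v => Ideal.Quotient.liftₐ I (aeval v.1) (by
      intro p hp
      exact (mem_vanishingIdeal_iff.1 hp) v.1 v.2)
    have hmax : ∀ v, (RingHom.ker (ev v)).IsMaximal := by
      intro v
      apply RingHom.ker_isMaximal_of_surjective
      intro c
      exact ⟨algebraMap ℂ A c, by simp⟩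
    let f : V → MaximalSpectrum A := fun v => ⟨RingHom.ker (ev v), hmax v⟩
    have hf : Function.Injective f := by
      intro v w hvw
      have h1 : RingHom.ker (ev v) = RingHom.ker (ev w) := by
        exact congrArg MaximalSpectrum.asIdeal hvw
      ext i
      have hev : ∀ (v : V) (q : MvPolynomial σ ℂ),
          ev v (Ideal.Quotient.mk I q) = aeval v.1 q := fun v q => rfl
      have h2 : (Ideal.Quotient.mk I (X i - C (v.1 i)) : A) ∈ RingHom.ker (ev v) := by
        rw [RingHom.mem_ker, hev]
        simp
      rw [h1, RingHom.mem_ker, hev] at h2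
      simp only [map_sub, aeval_X, algHom_C] at h2
      have h4 : w.1 i = v.1 i := by
        have := sub_eq_zero.1 h2
        simpa using this
      exact h4.symm
    have : Finite V := Finite.of_injective f hf
    exact hV (Set.toFinite V)
  rw [Ring.krullDimLE_zero_iff] at hnot
  push Not at hnot
  obtain ⟨p, hp, hpm⟩ := hnot
  have hB : ¬ IsField (A ⧸ p) := fun h => hpm (Ideal.Quotient.maximal_of_isField p h)
  have hsurj : Function.Surjective
      ((Ideal.Quotient.mkₐ ℂ p).comp (Ideal.Quotient.mkₐ ℂ I)) := by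
    intro b
    obtain ⟨a, rfl⟩ := Ideal.Quotient.mk_surjective b
    obtain ⟨q, rfl⟩ := Ideal.Quotient.mk_surjective a
    exact ⟨q, rfl⟩
  obtain ⟨L, iL, iA, φ, D, h1, h2⟩ := exists_generic_aux (A ⧸ p) hB
    ((Ideal.Quotient.mkₐ ℂ p).comp (Ideal.Quotient.mkₐ ℂ I)) hsurj
  refine ⟨L, iL, iA, φ, D, ?_, h2⟩
  intro q hq
  apply h1
  have h1 : q ∈ I := by
    rw [hI, mem_vanishingIdeal_iff]
    intro v hv
    exact hq v hv
  have h2 : (Ideal.Quotient.mkₐ ℂ I) q = 0 := by
    rw [Ideal.Quotient.mkₐ_eq_mk]
    exact Ideal.Quotient.eq_zero_iff_mem.2 h1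
  rw [AlgHom.comp_apply, h2, map_zero]

end Pool.Agent.KellerCross
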