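import Pool.Agent.KellerCross.Rigid
import Pool.Agent.KellerCross.Generic

open MvPolynomial

namespace Pool.Agent.KellerCross

/-! ### Coefficientwise derivations -/

section dc

variable {L : Type} [Field L] [Algebra ℂ L] (D : Derivation ℂ L L)

noncomputable def dc (p : MvPolynomial (Fin 2) L) : MvPolynomial (Fin 2) L :=
  ∑ m ∈ p.support, monomial m (D (coeff m p))

lemma coeff_dc (p : MvPolynomial (Fin 2) L) (m : Fin 2 →₀ ℕ) :
    coeff m (dc D p) = D (coeff m p) := by
  classical
  unfold dc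
  rw [coeff_sum]
  simp only [coeff_monomial]
  rw [Finset.sum_ite_eq']
  split_ifs with h
  · rfl
  · rw [notMem_support_iff.1 h, map_zero]

lemma dc_sub (p q : MvPolynomial (Fin 2) L) : dc D (p - q) = dc D p - dc D q := by
  ext m; simp only [coeff_dc, coeff_sub, map_sub]

lemma dc_mul (p q : MvPolynomial (Fin 2) L) : dc D (p * q) = dc D p * q + p * dc D q := by
  classical
  ext m
  rw [coeff_dc, coeff_add, coeff_mul, coeff_mul, coeff_mul, map_sum, ← Finset.sum_add_distrib]
  apply Finset.sum_congr rfl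
  intro x _
  rw [D.leibniz, coeff_dc, coeff_dc, smul_eq_mul, smul_eq_mul]; ring

lemma dc_pderiv (s : Fin 2) (p : MvPolynomial (Fin 2) L) :
    dc D (pderiv s p) = pderiv s (dc D p) := by
  ext m
  rw [coeff_dc, coeff_pderiv, coeff_pderiv, coeff_dc, D.leibniz, map_add, D.map_natCast,
    D.map_one_eq_zero]
  simp [mul_comm]

lemma dc_one : dc D (1 : MvPolynomial (Fin 2) L) = 0 := by
  classical
  ext m
  rw [coeff_dc, coeff_one, coeff_zero]
  split_ifs <;> simp

lemma dc_br (p q : MvPolynomial (Fin 2) L) : dc D (br p q) = br (dc D p) q + br p (dc D q) := by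
  unfold br
  rw [dc_sub, dc_mul, dc_mul, dc_pderiv, dc_pderiv, dc_pderiv, dc_pderiv]
  ring

end dc

/-! ### Polynomials with indeterminate coefficients -/

section mk

variable {d : ℕ}

/-- The exponents. -/
noncomputable def ex (t : Fin (d + 1) × Fin (d + 1)) : Fin 2 →₀ ℕ :=
  Finsupp.single 0 (t.1 : ℕ) + Finsupp.single 1 (t.2 : ℕ)

@[simp] lemma ex_zero (t : Fin (d + 1) × Fin (d + 1)) : ex t 0 = t.1 := by
  simp [ex]

@[simp] lemma ex_one (t : Fin (d + 1) × Fin (d + 1)) : ex t 1 = t.2 := by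
  simp [ex]

lemma ex_inj {t t' : Fin (d + 1) × Fin (d + 1)} (h : ex t = ex t') : t = t' := by
  have h0 := congrArg (fun f => f 0) h
  have h1 := congrArg (fun f => f 1) h
  simp at h0 h1
  ext <;> simp [h0, h1]

/-- The polynomial with given coefficients. -/
noncomputable def mk {A : Type} [CommRing A] (c : Fin (d + 1) × Fin (d + 1) → A) :
    MvPolynomial (Fin 2) A :=
  ∑ t, monomial (ex t) (c t)

lemma coeff_mk {A : Type} [CommRing A] (c : Fin (d + 1) × Fin (d + 1) → A)
    (t : Fin (d + 1) × Fin (d + 1)) : coeff (ex t) (mk c) = c t := by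
  classical
  unfold mk
  rw [coeff_sum, Finset.sum_eq_single t]
  · simp
  · intro t' _ hne
    rw [coeff_monomial, if_neg]
    exact fun h => hne (ex_inj h)
  · simp

lemma coeff_mk_of_not {A : Type} [CommRing A] (c : Fin (d + 1) × Fin (d + 1) → A)
    (m : Fin 2 →₀ ℕ) (hm : ∀ t : Fin (d + 1) × Fin (d + 1), ex t ≠ m) :
    coeff m (mk c) = 0 := by
  classical
  unfold mk
  rw [coeff_sum]
  apply Finset.sum_eq_zero
  intro t _
  rw [coeff_monomial, if_neg (hm t)]

lemma map_mk {A B : Type} [CommRing A] [CommRing B] (f : A →+* B)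
    (c : Fin (d + 1) × Fin (d + 1) → A) : map f (mk c) = mk (fun t => f (c t)) := by
  unfold mk
  rw [map_sum]
  simp only [map_monomial]

lemma mk_coeff (G : MvPolynomial (Fin 2) ℂ) (hG : G.totalDegree ≤ d) :
    mk (fun t : Fin (d + 1) × Fin (d + 1) => coeff (ex t) G) = G := by
  classical
  ext m
  by_cases hm : ∃ t : Fin (d + 1) × Fin (d + 1), ex t = m
  · obtain ⟨t, rfl⟩ := hm
    rw [coeff_mk]
  · push Not at hm
    rw [coeff_mk_of_not _ m hm]
    by_contra hne
    have h2 := le_totalDegree (mem_support_iff.2 (Ne.symm hne))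
    have h3 : (m.sum fun _ e => e) = m.degree := rfl
    rw [h3] at h2
    have h0 : m 0 ≤ m.degree := Finsupp.le_degree 0 m
    have h1 : m 1 ≤ m.degree := Finsupp.le_degree 1 m
    apply hm (⟨m 0, by omega⟩, ⟨m 1, by omega⟩)
    ext j
    fin_cases j <;> simp

end mk

/-! ### Agreement on the cross -/

lemma coeff_kill (s t : Fin 2) (hst : s ≠ t) (p : MvPolynomial (Fin 2) ℂ) (m : Fin 2 →₀ ℕ)
    (hm : m s = 0) :
    coeff m (aeval (fun j : Fin 2 => if j = s then (0 : MvPolynomial (Fin 2) ℂ) else X j) p)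
      = coeff m p := by
  classical
  induction p using MvPolynomial.induction_on' with
  | add p q hp hq => rw [map_add, coeff_add, coeff_add, hp, hq]
  | monomial n c =>
    rw [aeval_monomial]
    by_cases hn : n s = 0
    · have : (n.prod fun i k => (if i = s then (0 : MvPolynomial (Fin 2) ℂ) else X i) ^ k)
          = n.prod fun i k => (X i : MvPolynomial (Fin 2) ℂ) ^ k := by
        apply Finsupp.prod_congr
        intro x hx
        rw [if_neg]
        rintro rfl
        exact (Finsupp.mem_support_iff.1 hx) hn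
      rw [this, algebraMap_eq, ← monomial_eq]
    · have h0 : (n.prod fun i k => (if i = s then (0 : MvPolynomial (Fin 2) ℂ) else X i) ^ k)
          = 0 := by
        rw [Finsupp.prod]
        apply Finset.prod_eq_zero (Finsupp.mem_support_iff.2 hn)
        simp [hn]
      rw [h0, mul_zero, coeff_zero, coeff_monomial, if_neg]
      rintro rfl
      exact hn hm

lemma coeff_eq_of_cross (F G : MvPolynomial (Fin 2) ℂ)
    (h : ∀ v : Fin 2 → ℂ, v 0 * v 1 = 0 → eval v G = eval v F)
    (m : Fin 2 →₀ ℕ) (hm : m 0 = 0 ∨ m 1 = 0) : coeff m G = coeff m F := by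
  classical
  have key : ∀ s : Fin 2, m s = 0 → coeff m G = coeff m F := by
    intro s hs
    have hmap : ∀ (p : MvPolynomial (Fin 2) ℂ) (v : Fin 2 → ℂ),
        eval v (aeval (fun j : Fin 2 => if j = s then (0 : MvPolynomial (Fin 2) ℂ) else X j) p)
          = eval (fun j => if j = s then 0 else v j) p := by
      intro p v
      induction p using MvPolynomial.induction_on with
      | C a => simp
      | add p q hp hq => simp only [map_add, hp, hq]
      | mul_X p i hp =>
        simp only [map_mul, hp, aeval_X, eval_X]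
        congr 1
        split_ifs <;> simp
    have heq : aeval (fun j : Fin 2 => if j = s then (0 : MvPolynomial (Fin 2) ℂ) else X j) G
        = aeval (fun j : Fin 2 => if j = s then (0 : MvPolynomial (Fin 2) ℂ) else X j) F := by
      apply MvPolynomial.funext
      intro v
      rw [hmap, hmap]
      apply h
      fin_cases s <;> simp
    rw [← coeff_kill s (s + 1) (by fin_cases s <;> decide) G m hs, heq,
      coeff_kill s (s + 1) (by fin_cases s <;> decide) F m hs]
  rcases hm with h | h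
  · exact key 0 h
  · exact key 1 h

/-! ### The main theorem -/

theorem finite_coeffs (F₁ F₂ : MvPolynomial (Fin 2) ℂ) (d : ℕ) :
    {c : Fin 2 × (Fin (d + 1) × Fin (d + 1)) → ℂ |
      br (mk (fun t => c (0, t))) (mk (fun t => c (1, t))) = 1 ∧
      ∀ t : Fin (d + 1) × Fin (d + 1), ((t.1 : ℕ) = 0 ∨ (t.2 : ℕ) = 0) →
        c (0, t) = coeff (ex t) F₁ ∧ c (1, t) = coeff (ex t) F₂}.Finite := by
  classical
  by_contra hV
  set V := {c : Fin 2 × (Fin (d + 1) × Fin (d + 1)) → ℂ |
      br (mk (fun t => c (0, t))) (mk (fun t => c (1, t))) = 1 ∧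
      ∀ t : Fin (d + 1) × Fin (d + 1), ((t.1 : ℕ) = 0 ∨ (t.2 : ℕ) = 0) →
        c (0, t) = coeff (ex t) F₁ ∧ c (1, t) = coeff (ex t) F₂} with hVdef
  obtain ⟨L, iL, iA, φ, D, hφ, ⟨i, hi⟩⟩ := exists_generic V hV
  have hchar : CharZero L := charZero_of_injective_algebraMap (algebraMap ℂ L).injective
  set P : MvPolynomial (Fin 2) L :=
    mk (fun t : Fin (d + 1) × Fin (d + 1) => φ (X (0, t))) with hP
  set Q : MvPolynomial (Fin 2) L :=
    mk (fun t : Fin (d + 1) × Fin (d + 1) => φ (X (1, t))) with hQ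
  have hPQ : br P Q = 1 := by
    let R := MvPolynomial (Fin 2 × (Fin (d + 1) × Fin (d + 1))) ℂ
    let PR : MvPolynomial (Fin 2) R := mk (fun t : Fin (d + 1) × Fin (d + 1) => X (0, t))
    let QR : MvPolynomial (Fin 2) R := mk (fun t : Fin (d + 1) × Fin (d + 1) => X (1, t))
    let J : MvPolynomial (Fin 2) R := pderiv 0 PR * pderiv 1 QR - pderiv 1 PR * pderiv 0 QR - 1
    have hJ1 : ∀ m, φ (coeff m J) = 0 := by
      intro m
      apply hφ
      intro v hv
      rw [← coeff_map]
      have : map (eval v) J = 0 := by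
        simp only [J, map_sub, map_mul, ← pderiv_map, map_one, PR, QR, map_mk, eval_X]
        have := hv.1
        unfold br at this
        rw [this, sub_self]
      rw [this, coeff_zero]
    have hJ2 : map (φ : R →+* L) J = 0 := by
      ext m
      rw [coeff_map, coeff_zero]
      exact hJ1 m
    simp only [J, map_sub, map_mul, ← pderiv_map, map_one, PR, QR, map_mk] at hJ2
    unfold br
    exact sub_eq_zero.1 hJ2
  have hax : ∀ m : Fin 2 →₀ ℕ, m 0 = 0 ∨ m 1 = 0 →
      (coeff m (dc D P) = 0 ∧ coeff m (dc D Q) = 0) := by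
    intro m hm
    rw [coeff_dc, coeff_dc]
    by_cases hex : ∃ t : Fin (d + 1) × Fin (d + 1), ex t = m
    · obtain ⟨t, rfl⟩ := hex
      rw [ex_zero, ex_one] at hm
      rw [hP, hQ, coeff_mk, coeff_mk]
      have h0 : φ (X (0, t) - C (coeff (ex t) F₁)) = 0 := by
        apply hφ
        intro v hv
        simp [(hv.2 t hm).1]
      have h1 : φ (X (1, t) - C (coeff (ex t) F₂)) = 0 := by
        apply hφ
        intro v hv
        simp [(hv.2 t hm).2]
      rw [map_sub] at h0 h1
      have hC : ∀ a : ℂ, φ (C a) = algebraMap ℂ L a := fun a => φ.commutes a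
      rw [hC] at h0 h1
      rw [sub_eq_zero.1 h0, sub_eq_zero.1 h1, D.map_algebraMap, D.map_algebraMap]
      exact ⟨rfl, rfl⟩
    · push Not at hex
      rw [hP, hQ, coeff_mk_of_not _ m hex, coeff_mk_of_not _ m hex, map_zero]
      exact ⟨rfl, rfl⟩
  have hrigid := rigid P Q (dc D P) (dc D Q) hPQ
    (by rw [← dc_br, hPQ, dc_one])
    (fun m hm => (hax m hm).1) (fun m hm => (hax m hm).2)
    (by
      intro m hm h0
      rw [coeff_dc, h0, map_zero] at hm
      exact hm rfl)
    (by
      intro m hm h0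
      rw [coeff_dc, h0, map_zero] at hm
      exact hm rfl)
  apply hi
  obtain ⟨s, t⟩ := i
  have h0 := congrArg (coeff (ex t)) hrigid.1
  have h1 := congrArg (coeff (ex t)) hrigid.2
  rw [coeff_dc, hP, coeff_mk, coeff_zero] at h0
  rw [coeff_dc, hQ, coeff_mk, coeff_zero] at h1
  fin_cases s
  · exact h0
  · exact h1

/-- Keller maps of bounded degree agreeing with a given map on the cross are finite in number. -/
theorem finite_keller (F₁ F₂ : MvPolynomial (Fin 2) ℂ) (d : ℕ) :
    {G : MvPolynomial (Fin 2) ℂ × MvPolynomial (Fin 2) ℂ |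
      G.1.totalDegree ≤ d ∧ G.2.totalDegree ≤ d ∧
      pderiv 0 G.1 * pderiv 1 G.2 - pderiv 1 G.1 * pderiv 0 G.2 = 1 ∧
      ∀ v : Fin 2 → ℂ, v 0 * v 1 = 0 →
        eval v G.1 = eval v F₁ ∧ eval v G.2 = eval v F₂}.Finite := by
  classical
  refine ((finite_coeffs F₁ F₂ d).image
    (fun c => (mk (fun t => c (0, t)), mk (fun t => c (1, t))))).subset ?_
  rintro ⟨G₁, G₂⟩ ⟨h1, h2, h3, h4⟩
  simp only at h1 h2 h3 h4
  refine ⟨fun x => coeff (ex x.2) (![G₁, G₂] x.1), ⟨?_, ?_⟩, ?_⟩
  · simp only [Matrix.cons_val_zero, Matrix.cons_val_one]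
    rw [mk_coeff G₁ h1, mk_coeff G₂ h2]
    exact h3
  · intro t ht
    have ht' : ex t 0 = 0 ∨ ex t 1 = 0 := by
      rw [ex_zero, ex_one]; exact ht
    simp only [Matrix.cons_val_zero, Matrix.cons_val_one]
    exact ⟨coeff_eq_of_cross F₁ G₁ (fun v hv => (h4 v hv).1) _ ht',
      coeff_eq_of_cross F₂ G₂ (fun v hv => (h4 v hv).2) _ ht'⟩
  · simp only [Matrix.cons_val_zero, Matrix.cons_val_one]
    rw [mk_coeff G₁ h1, mk_coeff G₂ h2]

end Pool.Agent.KellerCross
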