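import Mathlib

open MvPolynomial

namespace Pool.Agent.KellerCross

variable {L : Type*} [Field L]

/-- Poisson bracket of two polynomials in two variables. -/
noncomputable def br (P Q : MvPolynomial (Fin 2) L) : MvPolynomial (Fin 2) L :=
  pderiv 0 P * pderiv 1 Q - pderiv 1 P * pderiv 0 Q

/-- Euler operators. -/
noncomputable def E (s : Fin 2) (R : MvPolynomial (Fin 2) L) : MvPolynomial (Fin 2) L :=
  X s * pderiv s R

lemma coeff_E (s : Fin 2) (R : MvPolynomial (Fin 2) L) (m : Fin 2 →₀ ℕ) :
    coeff m (E s R) = (m s : L) * coeff m R := by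
  classical
  unfold E
  rw [coeff_X_mul']
  split_ifs with h
  · rw [coeff_pderiv]
    have hs : 1 ≤ m s := Nat.one_le_iff_ne_zero.2 (Finsupp.mem_support_iff.1 h)
    have hle : Finsupp.single s 1 ≤ m := by
      rw [Finsupp.single_le_iff]; exact hs
    rw [tsub_add_cancel_of_le hle]
    have : (((m - Finsupp.single s 1 : Fin 2 →₀ ℕ) s : ℕ) : L) + 1 = (m s : L) := by
      rw [Finsupp.tsub_apply, Finsupp.single_eq_same]
      have h2 : m s - 1 + 1 = m s := Nat.sub_add_cancel hs
      rw [← Nat.cast_add_one, h2]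
    rw [this]; ring
  · have : m s = 0 := by
      by_contra hne
      exact h (Finsupp.mem_support_iff.2 hne)
    rw [this]; simp

lemma XX_br (R H : MvPolynomial (Fin 2) L) :
    X 0 * (X 1 * br R H) = E 0 R * E 1 H - E 1 R * E 0 H := by
  unfold br E; ring

lemma top_coeff (R H : MvPolynomial (Fin 2) L) (k i : Fin 2 →₀ ℕ) (lam : (Fin 2 →₀ ℕ) → ℝ)
    (hadd : ∀ a b, lam (a + b) = lam a + lam b) (hinj : Function.Injective lam)
    (hk : ∀ m, coeff m R ≠ 0 → lam m ≤ lam k) (hi : ∀ m, coeff m H ≠ 0 → lam m ≤ lam i) :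
    coeff (k + i) (X 0 * (X 1 * br R H))
      = ((k 0 : L) * i 1 - k 1 * i 0) * coeff k R * coeff i H := by
  classical
  have key : ∀ s t : Fin 2, coeff (k + i) (E s R * E t H)
      = (k s : L) * i t * coeff k R * coeff i H := by
    intro s t
    rw [coeff_mul, Finset.sum_eq_single (k, i)]
    · simp only [coeff_E]; ring
    · rintro ⟨a, b⟩ hab hne
      rw [Finset.HasAntidiagonal.mem_antidiagonal] at hab
      simp only at hab
      simp only [coeff_E]
      by_cases ha : coeff a R = 0
      · rw [ha]; ring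
      by_cases hb : coeff b H = 0
      · rw [hb]; ring
      exfalso
      have h1 := hk a ha
      have h2 := hi b hb
      have h3 : lam a + lam b = lam k + lam i := by rw [← hadd, ← hadd, hab]
      have h4 : lam a = lam k := by linarith
      have h5 : lam b = lam i := by linarith
      exact hne (by rw [hinj h4, hinj h5])
    · intro h
      exfalso
      exact h (by rw [Finset.HasAntidiagonal.mem_antidiagonal])
  rw [XX_br, coeff_sub, key, key]; ring

/-- Key lemma. -/
theorem key_lemma [CharZero L] (s t : Fin 2) (hst : s ≠ t) (R H : MvPolynomial (Fin 2) L)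
    (hH2 : ∀ m, coeff m H ≠ 0 → 2 ≤ m s ∧ 2 ≤ m t)
    (hH3 : ∃ m, coeff m H ≠ 0 ∧ m t ≤ m s)
    (hR : coeff (Finsupp.single s 1) R ≠ 0)
    (hRH : ∀ n, coeff n (br R H) ≠ 0 → coeff n R ≠ 0) : False := by
  classical
  obtain ⟨m₀, hm₀, hm₀'⟩ := hH3
  have hHs : H.support.Nonempty := ⟨m₀, mem_support_iff.2 hm₀⟩
  have hRs : R.support.Nonempty := ⟨_, mem_support_iff.2 hR⟩
  -- bound on exponents
  obtain ⟨N, hNR, hNH⟩ : ∃ N : ℕ, (∀ m, coeff m R ≠ 0 → ∀ j, m j ≤ N) ∧
      (∀ m, coeff m H ≠ 0 → ∀ j, m j ≤ N) := by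
    refine ⟨max R.totalDegree H.totalDegree, ?_, ?_⟩
    · intro m hm j
      have h1 : m j ≤ m.degree := Finsupp.le_degree j m
      have h2 := le_totalDegree (mem_support_iff.2 hm)
      have h3 : (m.sum fun _ e => e) = m.degree := rfl
      rw [h3] at h2
      exact (h1.trans h2).trans (le_max_left _ _)
    · intro m hm j
      have h1 : m j ≤ m.degree := Finsupp.le_degree j m
      have h2 := le_totalDegree (mem_support_iff.2 hm)
      have h3 : (m.sum fun _ e => e) = m.degree := rfl
      rw [h3] at h2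
      exact (h1.trans h2).trans (le_max_right _ _)
  -- the critical slope
  obtain ⟨c, hc, hcmax⟩ := H.support.exists_max_image
    (fun m => ((m s : ℝ) - 1) / ((m t : ℝ) - 1)) hHs
  have hc' := mem_support_iff.1 hc
  set κ₁ : ℝ := ((c s : ℝ) - 1) / ((c t : ℝ) - 1) with hκ₁
  have hct : (0 : ℝ) < (c t : ℝ) - 1 := by
    have := (hH2 c hc').2
    have h : (2 : ℝ) ≤ c t := by exact_mod_cast this
    linarith
  have hκ₁1 : 1 ≤ κ₁ := by
    have h := hcmax m₀ (mem_support_iff.2 hm₀)
    refine le_trans ?_ h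
    have h2 : (2 : ℝ) ≤ m₀ t := by exact_mod_cast (hH2 m₀ hm₀).2
    rw [le_div_iff₀ (by linarith)]
    have h3 : (m₀ t : ℝ) ≤ m₀ s := by exact_mod_cast hm₀'
    linarith
  have hNpos : (0 : ℝ) < (N : ℝ) + 1 := by positivity
  set δ : ℝ := 1 / ((N : ℝ) + 1) ^ 2 with hδ
  have hδpos : 0 < δ := by positivity
  obtain ⟨κ, hirr, hκl, hκr⟩ := exists_irrational_btwn (show max (κ₁ - δ) 0 < κ₁ from by
    rw [max_lt_iff]; constructor <;> linarith)
  have hκl1 : κ₁ - δ < κ := lt_of_le_of_lt (le_max_left _ _) hκl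
  have hκpos : 0 < κ := lt_of_le_of_lt (le_max_right _ _) hκl
  set lam : (Fin 2 →₀ ℕ) → ℝ := fun m => (m s : ℝ) - κ * m t with hlam
  have hadd : ∀ a b, lam (a + b) = lam a + lam b := by
    intro a b
    simp only [hlam, Finsupp.add_apply, Nat.cast_add]; ring
  have hfin : ∀ j : Fin 2, j = s ∨ j = t := by
    intro j
    fin_cases s <;> fin_cases t <;> fin_cases j <;> simp_all
  have hinj : Function.Injective lam := by
    intro a b hab
    simp only [hlam] at hab
    have h1 : ((a s : ℝ) - b s) = κ * ((a t : ℝ) - b t) := by linarith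
    have ht : a t = b t := by
      by_contra hne
      have hne' : ((a t : ℝ) - b t) ≠ 0 := by
        intro h0
        have : (a t : ℝ) = b t := by linarith
        exact hne (by exact_mod_cast this)
      apply hirr
      refine ⟨((a s : ℚ) - b s) / ((a t : ℚ) - b t), ?_⟩
      push_cast
      rw [div_eq_iff hne', h1]
    have hs : a s = b s := by
      rw [ht] at h1
      have : (a s : ℝ) = b s := by linarith
      exact_mod_cast this
    ext j
    rcases hfin j with rfl | rfl
    · exact hs
    · exact ht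
  obtain ⟨k, hk, hkmax⟩ := R.support.exists_max_image lam hRs
  obtain ⟨i, hi, himax⟩ := H.support.exists_max_image lam hHs
  have hk' := mem_support_iff.1 hk
  have hi' := mem_support_iff.1 hi
  have hkm : ∀ m, coeff m R ≠ 0 → lam m ≤ lam k := fun m hm => hkmax m (mem_support_iff.2 hm)
  have him : ∀ m, coeff m H ≠ 0 → lam m ≤ lam i := fun m hm => himax m (mem_support_iff.2 hm)
  have hlamk : 1 ≤ lam k := by
    have h := hkm _ hR
    have h2 : lam (Finsupp.single s 1) = 1 := by
      simp only [hlam, Finsupp.single_eq_same]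
      rw [Finsupp.single_eq_of_ne (Ne.symm hst)]
      simp
    rw [h2] at h; exact h
  have hlami : 1 - κ < lam i := by
    have h := him c hc'
    refine lt_of_lt_of_le ?_ h
    simp only [hlam]
    have h2 : (c s : ℝ) - 1 = κ₁ * ((c t : ℝ) - 1) := by
      rw [hκ₁]; field_simp
    nlinarith
  have htop := top_coeff R H k i lam hadd hinj hkm him
  have hiN := hNH i hi'
  have hkN := hNR k hk'
  have hi2 := hH2 i hi'
  -- the top coefficient must vanish
  have hdet : (k 0 : L) * i 1 - k 1 * i 0 = 0 := by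
    by_contra hne
    have hne2 : coeff (k + i) (X 0 * (X 1 * br R H)) ≠ 0 := by
      rw [htop]
      exact mul_ne_zero (mul_ne_zero hne hk') hi'
    have hij : ∀ j : Fin 2, 2 ≤ i j := by
      intro j
      rcases hfin j with rfl | rfl
      · exact hi2.1
      · exact hi2.2
    obtain ⟨n, hn⟩ : ∃ n : Fin 2 →₀ ℕ,
        k + i = Finsupp.single 0 1 + (Finsupp.single 1 1 + n) := by
      refine ⟨k + i - Finsupp.single 0 1 - Finsupp.single 1 1, ?_⟩
      ext j
      have := hij j
      fin_cases j <;> simp [Finsupp.single_apply] <;> simp at this <;> omega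
    rw [hn, coeff_X_mul, coeff_X_mul] at hne2
    have h1 := hkm n (hRH n hne2)
    have h2 : lam (k + i) = lam (Finsupp.single 0 1 + Finsupp.single 1 1) + lam n := by
      rw [hn, ← add_assoc, hadd]
    have h3 : lam (Finsupp.single 0 1 + Finsupp.single 1 1) = 1 - κ := by
      have hval : ∀ j : Fin 2, ((Finsupp.single 0 1 + Finsupp.single 1 1 : Fin 2 →₀ ℕ) j) = 1 := by
        intro j; fin_cases j <;> simp [Finsupp.single_apply]
      simp only [hlam, hval]; simp
    rw [h3, hadd] at h2
    linarith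
  have hdet2 : k 0 * i 1 = k 1 * i 0 := by
    have : ((k 0 * i 1 : ℕ) : L) = ((k 1 * i 0 : ℕ) : L) := by
      push_cast; linear_combination hdet
    exact_mod_cast this
  have hdet3 : k s * i t = k t * i s := by
    rcases hfin 0 with h0 | h0 <;> rcases hfin 1 with h1 | h1
    · exact absurd (h0.trans h1.symm) (by decide)
    · rw [h0, h1] at hdet2; exact hdet2
    · rw [h0, h1] at hdet2; linarith
    · exact absurd (h0.trans h1.symm) (by decide)
  have hdet4 : (i s : ℝ) * lam k = k s * lam i := by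
    have h : (k s : ℝ) * i t = k t * i s := by exact_mod_cast hdet3
    simp only [hlam]
    linear_combination κ * h
  have hks : (0 : ℝ) < k s := by
    have h1 : lam k ≤ k s := by
      simp only [hlam]
      have : 0 ≤ κ * (k t : ℝ) := by positivity
      linarith
    linarith
  have hlamiN : lam i ≤ δ * N := by
    have h1 := hcmax i hi
    have hit : (0 : ℝ) < (i t : ℝ) - 1 := by
      have h : (2 : ℝ) ≤ i t := by exact_mod_cast hi2.2
      linarith
    skip
    rw [div_le_iff₀ hit] at h1
    have h2 : lam i ≤ (κ₁ - κ) * i t := by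
      simp only [hlam]
      nlinarith
    have h3 : (κ₁ - κ) * i t ≤ δ * N := by
      have h4 : (i t : ℝ) ≤ N := by exact_mod_cast hiN t
      have h5 : (0 : ℝ) ≤ i t := by positivity
      have h6 : κ₁ - κ ≤ δ := by linarith
      have h7 : 0 ≤ κ₁ - κ := by linarith
      calc (κ₁ - κ) * i t ≤ δ * i t := mul_le_mul_of_nonneg_right h6 h5
        _ ≤ δ * N := mul_le_mul_of_nonneg_left h4 hδpos.le
    linarith
  have hfinal : (2 : ℝ) ≤ N * (δ * N) := by
    have h1 : (2 : ℝ) ≤ i s := by exact_mod_cast hi2.1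
    have h2 : (2 : ℝ) ≤ (i s : ℝ) * lam k := by nlinarith
    rw [hdet4] at h2
    have h3 : (k s : ℝ) ≤ N := by exact_mod_cast hkN s
    have h4 : 0 < lam i := by
      by_contra h
      push Not at h
      nlinarith
    calc (2 : ℝ) ≤ k s * lam i := h2
      _ ≤ N * lam i := mul_le_mul_of_nonneg_right h3 h4.le
      _ ≤ N * (δ * N) := mul_le_mul_of_nonneg_left hlamiN (by positivity)
  have : (N : ℝ) * (δ * N) < 1 := by
    rw [hδ]
    rw [show (N : ℝ) * (1 / ((N : ℝ) + 1) ^ 2 * N) = (N : ℝ) ^ 2 / ((N : ℝ) + 1) ^ 2 by ring]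
    rw [div_lt_one (by positivity)]
    have : (0 : ℝ) ≤ N := by positivity
    nlinarith
  linarith

end Pool.Agent.KellerCross
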