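import Pool.Agent.KellerCross.Basic

open MvPolynomial

namespace Pool.Agent.KellerCross

variable {L : Type*} [Field L]

lemma coeff_X_mul_of_eq (s : Fin 2) (m n : Fin 2 →₀ ℕ) (h : m = Finsupp.single s 1 + n)
    (R : MvPolynomial (Fin 2) L) : coeff m (X s * R) = coeff n R := by
  rw [h, coeff_X_mul]

lemma coeff_X_mul_zero (s : Fin 2) (m : Fin 2 →₀ ℕ) (h : m s = 0)
    (R : MvPolynomial (Fin 2) L) : coeff m (X s * R) = 0 := by
  classical
  rw [coeff_X_mul', if_neg]
  simp [h]

lemma exists_single_add (s : Fin 2) (m : Fin 2 →₀ ℕ) (h : m s ≠ 0) :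
    ∃ n : Fin 2 →₀ ℕ, m = Finsupp.single s 1 + n := by
  refine ⟨m - Finsupp.single s 1, ?_⟩
  rw [add_tsub_cancel_of_le]
  rw [Finsupp.single_le_iff]
  omega

/-- A vector field with zero divergence vanishing on the cross is Hamiltonian with a Hamiltonian
in `(xy)^2`. -/
theorem exists_hamiltonian [CharZero L] (a b : MvPolynomial (Fin 2) L)
    (hdiv : pderiv 0 a + pderiv 1 b = 0)
    (ha : ∀ m : Fin 2 →₀ ℕ, m 0 = 0 ∨ m 1 = 0 → coeff m a = 0)
    (hb : ∀ m : Fin 2 →₀ ℕ, m 0 = 0 ∨ m 1 = 0 → coeff m b = 0) :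
    ∃ H : MvPolynomial (Fin 2) L, pderiv 1 H = a ∧ pderiv 0 H = - b ∧
      ∀ m, coeff m H ≠ 0 → 2 ≤ m 0 ∧ 2 ≤ m 1 := by
  classical
  set H : MvPolynomial (Fin 2) L :=
    ∑ m ∈ (X 1 * a).support, monomial m (coeff m (X 1 * a) / (m 1 : L)) with hH
  have hcoeff : ∀ m, coeff m H = coeff m (X 1 * a) / (m 1 : L) := by
    intro m
    rw [hH, coeff_sum]
    simp only [coeff_monomial]
    rw [Finset.sum_ite_eq']
    split_ifs with h
    · rfl
    · rw [notMem_support_iff.1 h]; simp
  have hE1 : E 1 H = X 1 * a := by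
    ext m
    rw [coeff_E, hcoeff]
    by_cases hm : m 1 = 0
    · rw [coeff_X_mul_zero 1 m hm]; simp
    · have : (m 1 : L) ≠ 0 := Nat.cast_ne_zero.2 hm
      field_simp
  have hE0 : E 0 H = - (X 0 * b) := by
    ext m
    rw [coeff_E, hcoeff, coeff_neg]
    by_cases hm1 : m 1 = 0
    · rw [coeff_X_mul_zero 1 m hm1]
      by_cases hm0 : m 0 = 0
      · rw [coeff_X_mul_zero 0 m hm0]; simp
      · obtain ⟨n, hn⟩ := exists_single_add 0 m hm0
        rw [coeff_X_mul_of_eq 0 m n hn, hb n]
        · simp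
        · right
          have := congrArg (fun f => f 1) hn
          simp at this
          omega
    by_cases hm0 : m 0 = 0
    · rw [coeff_X_mul_zero 0 m hm0, hm0]; simp
    obtain ⟨n, hn⟩ := exists_single_add 0 m hm0
    have hn1 : n 1 ≠ 0 := by
      have := congrArg (fun f => f 1) hn
      simp at this
      omega
    obtain ⟨p, hp⟩ := exists_single_add 1 n hn1
    have h1 : m = Finsupp.single 1 1 + (Finsupp.single 0 1 + p) := by
      rw [hn, hp, add_left_comm]
    have h2 : m = Finsupp.single 0 1 + (Finsupp.single 1 1 + p) := by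
      rw [hn, hp]
    rw [coeff_X_mul_of_eq 1 m _ h1, coeff_X_mul_of_eq 0 m _ h2]
    have h3 := congrArg (coeff p) hdiv
    rw [coeff_add, coeff_pderiv, coeff_pderiv, coeff_zero, add_comm p, add_comm p] at h3
    have hm0' : (m 0 : L) = p 0 + 1 := by
      have := congrArg (fun f => f 0) h1
      simp at this
      rw [this]; push_cast; ring
    have hm1' : (m 1 : L) = p 1 + 1 := by
      have := congrArg (fun f => f 1) h1
      simp at this
      rw [this]; push_cast; ring
    have hne : (m 1 : L) ≠ 0 := Nat.cast_ne_zero.2 hm1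
    rw [← hm0', ← hm1'] at h3
    field_simp
    linear_combination h3
  refine ⟨H, ?_, ?_, ?_⟩
  · exact mul_left_cancel₀ (X_ne_zero 1) hE1
  · apply mul_left_cancel₀ (X_ne_zero 0)
    rw [mul_neg]; exact hE0
  · intro m hm
    have h1 : coeff m (X 1 * a) ≠ 0 := by
      intro h; apply hm; rw [hcoeff, h]; simp
    have hm1 : m 1 ≠ 0 := fun h => h1 (coeff_X_mul_zero 1 m h a)
    obtain ⟨n, hn⟩ := exists_single_add 1 m hm1
    rw [coeff_X_mul_of_eq 1 m n hn] at h1
    have h2 : n 0 ≠ 0 ∧ n 1 ≠ 0 := by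
      constructor
      · intro h; exact h1 (ha n (Or.inl h))
      · intro h; exact h1 (ha n (Or.inr h))
    have hn0' := congrArg (fun f => f 0) hn
    have hn1' := congrArg (fun f => f 1) hn
    simp at hn0' hn1'
    have hm0 : m 0 ≠ 0 := by omega
    have h3 : coeff m (X 0 * b) ≠ 0 := by
      have h4 : coeff m (E 0 H) ≠ 0 := by
        rw [coeff_E]
        exact mul_ne_zero (Nat.cast_ne_zero.2 hm0) hm
      rw [hE0, coeff_neg] at h4
      intro h5; rw [h5] at h4; simp at h4
    obtain ⟨q, hq⟩ := exists_single_add 0 m hm0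
    rw [coeff_X_mul_of_eq 0 m q hq] at h3
    have h4 : q 0 ≠ 0 := fun h => h3 (hb q (Or.inl h))
    have hq0' := congrArg (fun f => f 0) hq
    simp at hq0'
    constructor <;> omega

lemma coeff_mul_cross_left (u v : MvPolynomial (Fin 2) L)
    (hu : ∀ m : Fin 2 →₀ ℕ, m 0 = 0 ∨ m 1 = 0 → coeff m u = 0) :
    ∀ m : Fin 2 →₀ ℕ, m 0 = 0 ∨ m 1 = 0 → coeff m (u * v) = 0 := by
  classical
  intro m hm
  rw [coeff_mul]
  apply Finset.sum_eq_zero
  rintro ⟨p, q⟩ hpq
  rw [Finset.HasAntidiagonal.mem_antidiagonal] at hpq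
  simp only at hpq ⊢
  rw [hu p, zero_mul]
  rcases hm with h | h
  · left
    have := congrArg (fun f => f 0) hpq
    simp at this
    omega
  · right
    have := congrArg (fun f => f 1) hpq
    simp at this
    omega

/-- Rigidity theorem. -/
theorem rigid [CharZero L] (P Q u z : MvPolynomial (Fin 2) L) (hPQ : br P Q = 1)
    (huz : br u Q + br P z = 0)
    (hu : ∀ m : Fin 2 →₀ ℕ, m 0 = 0 ∨ m 1 = 0 → coeff m u = 0)
    (hz : ∀ m : Fin 2 →₀ ℕ, m 0 = 0 ∨ m 1 = 0 → coeff m z = 0)
    (hsu : ∀ m, coeff m u ≠ 0 → coeff m P ≠ 0)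
    (hsz : ∀ m, coeff m z ≠ 0 → coeff m Q ≠ 0) : u = 0 ∧ z = 0 := by
  classical
  set a := u * pderiv 1 Q - z * pderiv 1 P with ha
  set b := - (u * pderiv 0 Q) + z * pderiv 0 P with hb
  have hdiv : pderiv 0 a + pderiv 1 b = 0 := by
    rw [← huz, ha, hb]
    unfold br
    simp only [map_sub, map_add, map_neg, Derivation.leibniz, smul_eq_mul]
    have hcomm : ∀ R : MvPolynomial (Fin 2) L, pderiv 0 (pderiv 1 R) = pderiv 1 (pderiv 0 R) := by
      intro R
      ext m
      simp only [coeff_pderiv]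
      rw [add_right_comm m (Finsupp.single 1 1) (Finsupp.single 0 1)]
      simp [Finsupp.single_apply]
      ring
    rw [hcomm, hcomm]
    ring
  obtain ⟨H, hH1, hH0, hH⟩ := exists_hamiltonian a b hdiv
    (by
      intro m hm
      rw [ha, coeff_sub, coeff_mul_cross_left u _ hu m hm, coeff_mul_cross_left z _ hz m hm,
        sub_zero])
    (by
      intro m hm
      rw [hb, coeff_add, coeff_neg, coeff_mul_cross_left u _ hu m hm,
        coeff_mul_cross_left z _ hz m hm, neg_zero, add_zero])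
  have hPH : br P H = u := by
    unfold br at hPQ ⊢
    rw [hH1, hH0, ha, hb]
    linear_combination u * hPQ
  have hQH : br Q H = z := by
    unfold br at hPQ ⊢
    rw [hH1, hH0, ha, hb]
    linear_combination z * hPQ
  have hH0' : H = 0 := by
    by_contra hne
    obtain ⟨m, hm⟩ := MvPolynomial.ne_zero_iff.1 hne
    -- the constant term of the Jacobian
    have hc : coeff (Finsupp.single 0 1) P * coeff (Finsupp.single 1 1) Q
        - coeff (Finsupp.single 1 1) P * coeff (Finsupp.single 0 1) Q = 1 := by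
      have h := congrArg constantCoeff hPQ
      have hcc : ∀ (s : Fin 2) (R : MvPolynomial (Fin 2) L),
          constantCoeff (pderiv s R) = coeff (Finsupp.single s 1) R := by
        intro s R
        rw [constantCoeff_eq, coeff_pderiv]
        simp
      unfold br at h
      rw [map_sub, map_mul, map_mul, hcc, hcc, hcc, hcc, map_one] at h
      exact h
    rcases le_total (m 1) (m 0) with hle | hle
    · by_cases hP : coeff (Finsupp.single 0 1) P = 0
      · have hQ : coeff (Finsupp.single 0 1) Q ≠ 0 := by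
          intro hQ; rw [hP, hQ] at hc; simp at hc
        exact key_lemma 0 1 (by decide) Q H hH ⟨m, hm, hle⟩ hQ (by
          intro n hn; rw [hQH] at hn; exact hsz n hn)
      · exact key_lemma 0 1 (by decide) P H hH ⟨m, hm, hle⟩ hP (by
          intro n hn; rw [hPH] at hn; exact hsu n hn)
    · by_cases hP : coeff (Finsupp.single 1 1) P = 0
      · have hQ : coeff (Finsupp.single 1 1) Q ≠ 0 := by
          intro hQ; rw [hP, hQ] at hc; simp at hc
        exact key_lemma 1 0 (by decide) Q H (fun m hm => (hH m hm).symm) ⟨m, hm, hle⟩ hQ (by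
          intro n hn; rw [hQH] at hn; exact hsz n hn)
      · exact key_lemma 1 0 (by decide) P H (fun m hm => (hH m hm).symm) ⟨m, hm, hle⟩ hP (by
          intro n hn; rw [hPH] at hn; exact hsu n hn)
  constructor
  · rw [← hPH, hH0']; unfold br; simp
  · rw [← hQH, hH0']; unfold br; simp

end Pool.Agent.KellerCross
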